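import Pool.Agent.H2.GLnMain

/-!
# `GL(n)`, `n ≥ 4`: the exponents at all the primes that Rankin–Selberg theory allows

Let `m = ⌊n / 2⌋`, and let `p ^ θ_p` be the size of the largest Satake parameter at `p`. The convergence of
`L(s, Π × Π~)` for `Re s > 1` gives the convergence of `∑ p ^ (-m (1 - 2 θ_p) - ε)` for every `ε > 0`, so that
`θ_p ≤ 1 / 2 - 1 / (2 m) + ε` for almost all `p`. We show that the method gives no more: if `0 ≤ θ_p < 1 / 2` and the
series `∑ p ^ (-m (1 - 2 θ_p) + ε)` converges for some `ε > 0`, then there are unitary generic unramified parameters at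
ALL primes, with exactly these exponents, self-dual or not, for which `L(s, Π × τ)`, `L(s, Π × Π × τ)` and
`L(s, Π × Π~ × τ)` behave as for cuspidal `Π` and are holomorphic without zeros (except for `L(s, τ)`) in a half plane
`Re s > 1 - η`, for all the twists `τ` of any prescribed countable family. In particular every constant
`θ < 1 / 2 - 1 / (2 m)` occurs as the exponent at all the primes.
-/

set_option autoImplicit false

open Pool.Agent.H2.SymDefs Pool.Agent.H2.GLn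

theorem Pool.Agent.Results.MP_8410ab_nt.RankinSelbergExponents.result (n : ℕ) (hn : 4 ≤ n) :
    -- prescribed exponents
    (∀ θ : Nat.Primes → ℝ, (∀ p, 0 ≤ θ p ∧ θ p < 1 / 2) →
      (∃ ε : ℝ, 0 < ε ∧
        Summable fun p : Nat.Primes => ((p : ℕ) : ℝ) ^ (-((n / 2 : ℕ) : ℝ) * (1 - 2 * θ p) + ε)) →
      ∀ (J : Type) [Countable J] (τ : J → EulerProduct),
        (∃ a : Nat.Primes → Fin n → ℂ, (∀ p : Nat.Primes, UnitaryGeneric (p : ℕ) (a p)) ∧ HasExponents a θ ∧
          ∃ η : ℝ, 0 < η ∧ ∀ j, NiceGeneral a η (τ j)) ∧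
        ∃ a : Nat.Primes → Fin n → ℂ, (∀ p : Nat.Primes, UnitaryGeneric (p : ℕ) (a p) ∧ SelfDual (a p)) ∧
          HasExponents a θ ∧ ∃ η : ℝ, 0 < η ∧ ∀ j, NiceSelfDual a η (τ j)) ∧
    -- the same exponent at all the primes
    ∀ θ : ℝ, 0 ≤ θ → θ < 1 / 2 - 1 / (2 * ((n / 2 : ℕ) : ℝ)) → ∀ (J : Type) [Countable J] (τ : J → EulerProduct),
      (∃ a : Nat.Primes → Fin n → ℂ, (∀ p : Nat.Primes, UnitaryGeneric (p : ℕ) (a p)) ∧
        HasExponents a (fun _ => θ) ∧ ∃ η : ℝ, 0 < η ∧ ∀ j, NiceGeneral a η (τ j)) ∧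
      ∃ a : Nat.Primes → Fin n → ℂ, (∀ p : Nat.Primes, UnitaryGeneric (p : ℕ) (a p) ∧ SelfDual (a p)) ∧
        HasExponents a (fun _ => θ) ∧ ∃ η : ℝ, 0 < η ∧ ∀ j, NiceSelfDual a η (τ j) := by
  refine ⟨fun θ hθ hs J _ τ => exponents_allowed n hn θ hθ hs J τ, fun θ h0 h1 J _ τ => ?_⟩
  refine exponents_allowed n hn (fun _ => θ) (fun _ => ⟨h0, ?_⟩) (constant_summable n hn h1) J τ
  have : 0 ≤ 1 / (2 * ((n / 2 : ℕ) : ℝ)) := by positivity
  linarith
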