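import Pool.Agent.H1.SatoTateDens

/-!
# The Ramanujan conjecture for `GL(2)` at the places with a prescribed Sato-Tate angle

Let `K` be a totally real number field, for instance `ℚ`, and `f` a Hilbert modular newform of regular weight over `K`
without complex multiplication and with trivial central character, for instance a non-CM elliptic curve over `ℚ`, with the
Satake parameters `exp(± i θ(v))`, `θ(v) ∈ [0, π]`. By the theorem of Sato and Tate the `θ(v)` are equidistributed with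
respect to `μ = (2/π) sin² θ dθ`. Let `π` be any unitary cuspidal automorphic representation of `GL_2` over `K` (say, generated by
a Maass form; it has nothing to do with `f`), not dihedral, tetrahedral or octahedral and not a twist of `f` (in these
cases it is tempered). All densities are Dirichlet densities. How often does the Ramanujan conjecture hold for `π` at
the places whose angle `θ(v)` is in a given set `F`? The theorems of Ramakrishnan and of Kim and Shahidi (`π` is tempered at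
`9/10`, and at `34/35` of all the places) give nothing if `μ(F) ≤ 1/35`: all the exceptional places could be there. We show:

1. For every closed set `F` of angles the places with `θ(v) ∈ F` at which `π` is not tempered have upper density at most
   `min (μ(F) / 10) (μ(F) / (1 + 34 μ(F)))`. So, **among the primes whose Frobenius angle with respect to `f` is in `F`, `π`
   is tempered at no less than nine tenths**, and more precisely at a proportion of at least
   `1 - min (1/10) (1 / (1 + 34 μ(F)))`, which increases from `9/10` to `34/35`. For every set `B` of angles whose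
   boundary has measure zero, for instance an interval, the places with `θ(v) ∈ B` at which `π` is tempered have lower
   density at least `μ(B) - min (μ(B) / 10) (μ(B) / (1 + 34 μ(B)))`.
2. For `T ≥ 1` with `T⁴ - 3 T² + 1 ≥ 0` the places with `θ(v) ∈ F` and `|λ(v)| ≥ T`, `λ(v)` the trace of the Satake
   parameter of `π`, have upper density at most the minimum of `μ(F) / (1 + (T² - 1)²)` and
   `μ(F) / (1 + μ(F) ((T² - 1)² + (T⁴ - 3 T² + 1)²))`.
3. If `π` has trivial central character, then for `T ≥ 2` the places with `θ(v) ∈ F` and `± λ(v) ≥ T`, with a prescribed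
   sign, have upper density at most the minimum of `μ(F) / (1 + T² + (T² - 1)²)` and
   `μ(F) / (1 + μ(F) (T² + (T² - 1)² + (T³ - 2 T)² + (T⁴ - 3 T² + 1)²))`; for `T = 2` these are `μ(F) / 14` and
   `μ(F) / (1 + 54 μ(F))`.

The structures `Pair` and `PairTrivial` list what is used. All of it is known: `Sym^n f` is a cuspidal automorphic
representation of `GL(n+1)` for all `n` (Newton, Thorne), and `Ad π`, `A⁴ π = Sym⁴ π ⊗ ω⁻²` are cuspidal
representations of `GL(3)`, `GL(5)` (Gelbart, Jacquet, Kim, Shahidi). The `L`-functions of Rankin and Selberg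
`L^S(s, Sym^n f × A_i π)` and `L^S(s, A_i π × A_j π)`, `A_0 π = 1`, `A_1 π = Ad π`, `A_2 π = A⁴ π`, converge absolutely
for `Re s > 1`, and have a continuation to a neighbourhood of `s = 1` with a simple pole if the two representations
are dual to each other, and holomorphic and not zero otherwise (Jacquet, Piatetski-Shapiro, Shalika, Shahidi). If
`Ad π ≅ Sym² f` or `A⁴ π ≅ Sym⁴ f`, then `π` is tempered by the theorems of Deligne and Blasius on `f`.

The products `Sym^n f × A_i π × A_j π` are not known to be automorphic. The two bounds come from the nonnegative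
functions `p(2 cos θ) (1 + 3 Ad)²`, `(Ad)² = 1 + Ad + A⁴`, and `(p(2 cos θ) + μ(F) (3 Ad + 5 A⁴))²`, `p ≥ 0` a polynomial
which is at least one on `F` and close to zero outside `F`. The prime powers contribute nonnegative terms and are
dropped.
-/

set_option autoImplicit false

namespace Pool.Agent.Results.MP_8410ab_nt.SatoTateAngles

open NumberField IsDedekindDomain Filter Topology MeasureTheory
open scoped ComplexConjugate

/-- The norm of the place `v`. -/
noncomputable def q {K : Type} [Field K] [NumberField K] (v : HeightOneSpectrum (𝓞 K)) : ℕ :=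
  Ideal.absNorm v.asIdeal

/-- The finite places outside `S`. -/
abbrev Places {K : Type} [Field K] [NumberField K] (S : Finset (HeightOneSpectrum (𝓞 K))) :=
  {v : HeightOneSpectrum (𝓞 K) // v ∉ S}

/-- The Satake parameters of a unitary representation: a permutation of the parameters agrees with
`z ↦ 1 / conj z`. -/
def Unitary (a : Fin 2 → ℂ) : Prop :=
  (∀ i, a i ≠ 0) ∧ ∃ τ : Equiv.Perm (Fin 2), ∀ i, a (τ i) = (conj (a i))⁻¹

/-- The representation with the parameters `a` is tempered. -/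
def Tempered (a : Fin 2 → ℂ) : Prop := ∀ i, ‖a i‖ = 1

/-- The traces of `1`, `Ad` and `A⁴` for parameters with the quotient `t`. -/
noncomputable def ad (t : ℂ) : Fin 3 → ℂ := ![1, t + 1 + t⁻¹, t ^ 2 + t + 1 + t⁻¹ + t⁻¹ ^ 2]

/-- The traces of `Sym^j`, `j ≤ 4`, for the parameters `z` and `1 / z`. -/
noncomputable def sym (z : ℂ) : Fin 5 → ℂ :=
  ![1, z + z⁻¹, z ^ 2 + 1 + z⁻¹ ^ 2, z ^ 3 + z + z⁻¹ + z⁻¹ ^ 3, z ^ 4 + z ^ 2 + 1 + z⁻¹ ^ 2 + z⁻¹ ^ 4]

/-- The trace of `Sym^n` for the parameters `z` and `1 / z`. -/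
noncomputable def symTr (n : ℕ) (z : ℂ) : ℂ := ∑ j ∈ Finset.range (n + 1), z ^ (n - j) * z⁻¹ ^ j

/-- The number `exp(i t)`. -/
noncomputable def pt (t : ℝ) : ℂ := Complex.exp (t * Complex.I)

/-- The measure of Sato and Tate of a set of angles. -/
noncomputable def st (A : Set ℝ) : ℝ := ∫ t in A ∩ Set.Icc 0 Real.pi, 2 / Real.pi * Real.sin t ^ 2

section

variable {K : Type} [Field K] [NumberField K] {S : Finset (HeightOneSpectrum (𝓞 K))}

/-- The term `f(v, k) / k (N v)^{-ks}`, at `(v, k - 1)`. -/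
noncomputable def term (f : Places S → ℕ → ℂ) (s : ℂ) (x : Places S × ℕ) : ℂ :=
  f x.1 (x.2 + 1) / ((x.2 : ℂ) + 1) * ((q x.1.1 : ℂ) ^ (-s)) ^ (x.2 + 1)

/-- The `L`-function whose logarithm is the sum of the terms of `f` converges absolutely for real `s > 1`, and it has a
continuation to a neighbourhood of `s = 1` with a pole of order `e` at `s = 1` (no pole and no zero if `e = 0`). -/
structure Nice (f : Places S → ℕ → ℂ) (e : ℤ) : Prop where
  conv : ∀ s : ℝ, 1 < s → Summable (term f s)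
  order : ∃ Λ : ℂ → ℂ, MeromorphicAt Λ 1 ∧ meromorphicOrderAt Λ 1 = ((-e : ℤ) : WithTop ℤ) ∧
    ∀ᶠ s in 𝓝 (1 : ℂ), (1 : ℝ) < s.re → Λ s = Complex.exp (∑' x, term f s x)

/-- What is used of the form `f` with the angles `θ` and the representation `π` with the Satake parameters `a`: the
`L`-functions `L^S(s, A_i π × A_j π)` and `L^S(s, Sym^n f × A_i π)`, `A_0 π = 1`, `A_1 π = Ad π`, `A_2 π = A⁴ π`. -/
structure Pair (θ : Places S → ℝ) (a : Places S → Fin 2 → ℂ) : Prop where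
  /-- the angles of `f` -/
  angle : ∀ v, θ v ∈ Set.Icc 0 Real.pi
  /-- the components of `π` are unitary -/
  unitary : ∀ v, Unitary (a v)
  /-- `L(s, A_i π × A_j π)` -/
  rankinSelberg : ∀ i j : Fin 3,
    Nice (fun v k => ad ((a v 0 / a v 1) ^ k) i * ad ((a v 0 / a v 1) ^ k) j) (if i = j then 1 else 0)
  /-- `L(s, Sym^n f × A_i π)` -/
  symmetric : ∀ (n : ℕ) (i : Fin 3),
    Nice (fun v k => symTr n (pt (θ v) ^ k) * ad ((a v 0 / a v 1) ^ k) i) (if n = 0 ∧ i = 0 then 1 else 0)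

/-- What is used if `π` has trivial central character, with the Satake parameters `a, 1/a`: the `L`-functions
`L^S(s, Sym^i π × Sym^j π)` and `L^S(s, Sym^n f × Sym^i π)`, `i, j ≤ 4`. -/
structure PairTrivial (θ : Places S → ℝ) (a : Places S → ℂ) : Prop where
  /-- the angles of `f` -/
  angle : ∀ v, θ v ∈ Set.Icc 0 Real.pi
  /-- the components of `π` are unitary -/
  unitary : ∀ v, a v ≠ 0 ∧ (conj (a v) = a v ∨ conj (a v) = (a v)⁻¹)
  /-- `L(s, Sym^i π × Sym^j π)` -/
  rankinSelberg : ∀ i j : Fin 5,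
    Nice (fun v k => sym (a v ^ k) i * sym (a v ^ k) j) (if i = j then 1 else 0)
  /-- `L(s, Sym^n f × Sym^i π)` -/
  symmetric : ∀ (n : ℕ) (i : Fin 5),
    Nice (fun v k => symTr n (pt (θ v) ^ k) * sym (a v ^ k) i) (if n = 0 ∧ i = 0 then 1 else 0)

/-- The set `B` of places has upper density at most `d`:
`∑_{v ∈ B} (N v)^{-s} ≤ (d + ε) log (1 / (s - 1))` for every `ε > 0` and all real `s > 1` close to `1`. -/
def UpperDensityLe (B : Set (Places S)) (d : ℝ) : Prop :=
  ∀ ε : ℝ, 0 < ε → ∀ᶠ s : ℝ in 𝓝[>] 1,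
    (Summable (B.indicator fun v => (q v.1 : ℝ) ^ (-s))) ∧
    ∑' v, B.indicator (fun v => (q v.1 : ℝ) ^ (-s)) v ≤ (d + ε) * Real.log (1 / (s - 1))

/-- The set `B` of places has lower density at least `d`:
`∑_{v ∈ B} (N v)^{-s} ≥ (d - ε) log (1 / (s - 1))` for every `ε > 0` and all real `s > 1` close to `1`. -/
def LowerDensityGe (B : Set (Places S)) (d : ℝ) : Prop :=
  ∀ ε : ℝ, 0 < ε → ∀ᶠ s : ℝ in 𝓝[>] 1,
    (Summable (B.indicator fun v => (q v.1 : ℝ) ^ (-s))) ∧
    (d - ε) * Real.log (1 / (s - 1)) ≤ ∑' v, B.indicator (fun v => (q v.1 : ℝ) ^ (-s)) v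

/-- the trace `λ(v)` for the parameters `a, 1/a` -/
noncomputable def lam (a : ℂ) : ℝ := (a + a⁻¹).re

theorem one_lt_q (v : Places S) : 1 < q v.1 := by
  have h1 : Ideal.absNorm v.1.asIdeal ≠ 0 := Ideal.absNorm_eq_zero_iff.not.2 v.1.ne_bot
  have h2 : Ideal.absNorm v.1.asIdeal ≠ 1 := fun h => v.1.isPrime.ne_top (Ideal.absNorm_eq_one_iff.1 h)
  unfold q
  omega

theorem ud_mono {B B' : Set (Places S)} (h : B' ⊆ B) {d : ℝ} (hB : UpperDensityLe B d) :
    UpperDensityLe B' d := by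
  intro ε hε
  filter_upwards [hB ε hε] with s hs
  have h1 : ∀ v, B'.indicator (fun v : Places S => (q v.1 : ℝ) ^ (-s)) v ≤
      B.indicator (fun v => (q v.1 : ℝ) ^ (-s)) v := fun v =>
    Set.indicator_le_indicator_of_subset h (fun _ => by positivity) v
  have h2 : Summable (B'.indicator fun v : Places S => (q v.1 : ℝ) ^ (-s)) :=
    Summable.of_nonneg_of_le (fun v => Set.indicator_nonneg (fun v _ => by positivity) v) h1 hs.1
  exact ⟨h2, (h2.tsum_le_tsum h1 hs.1).trans hs.2⟩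

theorem ud_min {B : Set (Places S)} {d d' : ℝ} (h : UpperDensityLe B d) (h' : UpperDensityLe B d') :
    UpperDensityLe B (min d d') := by
  rcases min_choice d d' with h1 | h1 <;> rw [h1] <;> assumption

theorem nice_congr {f : Places S → ℕ → ℂ} {f' : Places S → ℕ → ℂ} {e : ℤ} (h : Nice f e)
    (hf : ∀ v k, f' v k = f v (k + 1)) : Pool.Agent.H1.SatoTate.Nice (fun v : Places S => q v.1) f' e := by
  have ht : ∀ (s : ℂ) x, Pool.Agent.X289.Lin.term (fun v : Places S => q v.1) f' s x = term f s x := by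
    intro s x
    unfold Pool.Agent.X289.Lin.term term
    rw [hf]
  refine ⟨fun s hs => (h.conv s hs).congr fun x => (ht s x).symm, ?_⟩
  obtain ⟨Λ, g1, g2, g3⟩ := h.order
  refine ⟨Λ, g1, g2, ?_⟩
  filter_upwards [g3] with s g4 g5
  rw [g4 g5]
  congr 1
  exact tsum_congr fun x => (ht s x).symm

/-- the real functions for `Pair` -/
noncomputable def AA (a : Places S → Fin 2 → ℂ) (i : Fin 3) (v : Places S) (k : ℕ) : ℝ :=
  Pool.Agent.X289.Sat.adR (Pool.Agent.X289.Sat.trAd fun l => a v l ^ (k + 1)) i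

/-- the real functions for `PairTrivial` -/
noncomputable def SS (a : Places S → ℂ) (i : Fin 5) (v : Places S) (k : ℕ) : ℝ :=
  Pool.Agent.X289.Sat.symR (Pool.Agent.X289.Sat.lam (a v ^ (k + 1))) i

theorem AA_eq {θ : Places S → ℝ} {a : Places S → Fin 2 → ℂ} (h : Pair θ a) (i : Fin 3) (v : Places S) (k : ℕ) :
    ((AA a i v k : ℝ) : ℂ) = ad ((a v 0 / a v 1) ^ (k + 1)) i := by
  unfold AA
  rw [Pool.Agent.X289.Sat.adR_eq (h.unitary v)]
  rfl

theorem SS_eq {θ : Places S → ℝ} {a : Places S → ℂ} (h : PairTrivial θ a) (i : Fin 5) (v : Places S) (k : ℕ) :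
    ((SS a i v k : ℝ) : ℂ) = sym (a v ^ (k + 1)) i := by
  unfold SS
  rw [Pool.Agent.X289.Sat.symR_eq (h.unitary v)]
  rfl

theorem first_pair {θ : Places S → ℝ} {a : Places S → Fin 2 → ℂ} (h : Pair θ a) {F : Set ℝ} (hF : IsClosed F)
    {e : ℝ} (he : 0 ≤ e) {B : Set (Places S)} (hB : ∀ v ∈ B, θ v ∈ F ∧ (e = 0 ∨ e ≤ ‖a v 0 + a v 1‖ ^ 2 - 1)) :
    UpperDensityLe B (st F / (1 + e ^ 2)) := by
  have e1 : ∀ v k, (∑ i, (![1 + e ^ 2, 2 * e + e ^ 2, e ^ 2] : Fin 3 → ℝ) i * AA a i v k) =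
      (1 + e * Pool.Agent.X289.Sat.trAd fun l => a v l ^ (k + 1)) ^ 2 := by
    intro v k
    simp only [Fin.sum_univ_three, Matrix.cons_val_zero, Matrix.cons_val_one, Matrix.cons_val, AA,
      Pool.Agent.X289.Sat.adR]
    ring
  have h1 := Pool.Agent.H1.SatoTate.first (P := Places S) (q := fun v => q v.1) one_lt_q (i0 := (0 : Fin 3))
    (θ := θ) h.angle (A := AA a)
    (fun n i => nice_congr (h.symmetric n i) fun v k => by rw [AA_eq h]; rfl)
    (fun i j => nice_congr (h.rankinSelberg i j) fun v k => by rw [AA_eq h, AA_eq h])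
    hF (![1 + e ^ 2, 2 * e + e ^ 2, e ^ 2] : Fin 3 → ℝ)
    (by simp only [Matrix.cons_val_zero]; positivity)
    (fun v k => by rw [e1]; exact sq_nonneg _) (Y := (1 + e ^ 2) ^ 2) (by positivity) (B := B)
    (fun v hv => by
      obtain ⟨h2, h3⟩ := hB v hv
      refine ⟨h2, ?_⟩
      rw [e1]
      simp only [zero_add, pow_one]
      have h4 : Pool.Agent.X289.Sat.trAd (a v) = ‖a v 0 + a v 1‖ ^ 2 - 1 :=
        (Pool.Agent.X289.Sat.facts (h.unitary v)).2.2.1
      have h5 : e * e ≤ e * Pool.Agent.X289.Sat.trAd (a v) := by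
        rcases h3 with h3 | h3
        · rw [h3]
          simp
        · rw [h4]
          exact mul_le_mul_of_nonneg_left h3 he
      exact pow_le_pow_left₀ (by positivity) (by nlinarith) 2)
  have h2 : (![1 + e ^ 2, 2 * e + e ^ 2, e ^ 2] : Fin 3 → ℝ) 0 * Pool.Agent.H1.SatoTate.st F / (1 + e ^ 2) ^ 2 =
      st F / (1 + e ^ 2) := by
    have : (![1 + e ^ 2, 2 * e + e ^ 2, e ^ 2] : Fin 3 → ℝ) 0 = 1 + e ^ 2 := rfl
    rw [this]
    have h3 : Pool.Agent.H1.SatoTate.st F = st F := rfl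
    rw [h3]
    have : (1 + e ^ 2 : ℝ) ≠ 0 := by positivity
    field_simp
  rw [h2] at h1
  exact h1

theorem second_pair {θ : Places S → ℝ} {a : Places S → Fin 2 → ℂ} (h : Pair θ a) {F : Set ℝ} (hF : IsClosed F)
    {T : ℝ} (hT : 1 ≤ T) (hT2 : 0 ≤ T ^ 4 - 3 * T ^ 2 + 1) {B : Set (Places S)}
    (hB : ∀ v ∈ B, θ v ∈ F ∧ T ^ 2 ≤ ‖a v 0 + a v 1‖ ^ 2) :
    UpperDensityLe B (st F / (1 + st F * ((T ^ 2 - 1) ^ 2 + (T ^ 4 - 3 * T ^ 2 + 1) ^ 2))) := by
  have h1 := Pool.Agent.H1.SatoTate.second (P := Places S) (q := fun v => q v.1) one_lt_q (i0 := (0 : Fin 3))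
    (θ := θ) h.angle (A := AA a) (fun v k => rfl)
    (fun n i => nice_congr (h.symmetric n i) fun v k => by rw [AA_eq h]; rfl)
    (fun i j => nice_congr (h.rankinSelberg i j) fun v k => by rw [AA_eq h, AA_eq h])
    hF (![0, T ^ 2 - 1, T ^ 4 - 3 * T ^ 2 + 1] : Fin 3 → ℝ) rfl (B := B)
    (fun v hv => by
      obtain ⟨h2, h3⟩ := hB v hv
      refine ⟨h2, ?_⟩
      have h4 : Pool.Agent.X289.Sat.trAd (a v) = ‖a v 0 + a v 1‖ ^ 2 - 1 :=
        (Pool.Agent.X289.Sat.facts (h.unitary v)).2.2.1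
      simp only [Fin.sum_univ_three, Matrix.cons_val_zero, Matrix.cons_val_one, Matrix.cons_val, AA,
        Pool.Agent.X289.Sat.adR, zero_add, pow_one]
      rw [h4]
      set y := ‖a v 0 + a v 1‖ ^ 2 with hy
      set A := T ^ 2 - 1 with hA
      set D := T ^ 4 - 3 * T ^ 2 + 1 with hD
      have hA0 : 0 ≤ A := by nlinarith
      have hT3 : 2 ≤ T ^ 2 := by
        by_contra h5
        push Not at h5
        nlinarith
      have h5 : D ≤ (y - 1) ^ 2 - (y - 1) - 1 := by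
        rw [hD]
        nlinarith
      have h6 : A ≤ y - 1 := by
        rw [hA]
        linarith
      nlinarith)
  have h2 : (∑ i, (![0, T ^ 2 - 1, T ^ 4 - 3 * T ^ 2 + 1] : Fin 3 → ℝ) i ^ 2) =
      (T ^ 2 - 1) ^ 2 + (T ^ 4 - 3 * T ^ 2 + 1) ^ 2 := by
    simp only [Fin.sum_univ_three, Matrix.cons_val_zero, Matrix.cons_val_one, Matrix.cons_val]
    ring
  rw [h2] at h1
  exact h1

theorem norm_ge {a : Fin 2 → ℂ} (h : Unitary a) (h' : ¬ Tempered a) : 2 ^ 2 ≤ ‖a 0 + a 1‖ ^ 2 := by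
  have h1 := (Pool.Agent.X289.Sat.facts h).2.2.1
  have h2 := (Pool.Agent.X289.Sat.facts h).2.2.2 h'
  linarith

theorem main {θ : Places S → ℝ} {a : Places S → Fin 2 → ℂ} (h : Pair θ a) {F : Set ℝ} (hF : IsClosed F) :
    UpperDensityLe {v | θ v ∈ F ∧ ¬ Tempered (a v)} (min (st F / 10) (st F / (1 + 34 * st F))) := by
  refine ud_min ?_ ?_
  · have h1 := first_pair h hF (e := 3) (by norm_num) (B := {v | θ v ∈ F ∧ ¬ Tempered (a v)}) fun v hv =>
      ⟨hv.1, Or.inr (by linarith [norm_ge (h.unitary v) hv.2])⟩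
    norm_num at h1
    exact h1
  · have h1 := second_pair h hF (T := 2) (by norm_num) (by norm_num) (B := {v | θ v ∈ F ∧ ¬ Tempered (a v)})
      fun v hv => ⟨hv.1, norm_ge (h.unitary v) hv.2⟩
    norm_num at h1
    rw [mul_comm (st F) 34] at h1
    exact h1

theorem lower {θ : Places S → ℝ} {a : Places S → Fin 2 → ℂ} (h : Pair θ a) {B : Set ℝ}
    (hB : volume (frontier B) = 0) :
    LowerDensityGe {v | θ v ∈ B ∧ Tempered (a v)} (st B - min (st B / 10) (st B / (1 + 34 * st B))) := by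
  have hcl : st (closure B) = st B := Pool.Agent.H1.SatoTate.st_congr (by
    have h1 : closure B \ B ⊆ frontier B := fun x hx => ⟨hx.1, fun h2 => hx.2 (interior_subset h2)⟩
    refine Filter.EventuallyLE.antisymm ?_ subset_closure.eventuallyLE
    exact ae_le_set.2 (measure_mono_null h1 hB))
  have hin : st (interior B) = st B := Pool.Agent.H1.SatoTate.st_congr (by
    have h1 : B \ interior B ⊆ frontier B := fun x hx => ⟨subset_closure hx.1, hx.2⟩
    refine Filter.EventuallyLE.antisymm interior_subset.eventuallyLE ?_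
    exact ae_le_set.2 (measure_mono_null h1 hB))
  have hco : st (interior B)ᶜ = 1 - st B := by
    have h1 : st (interior B) + st (interior B)ᶜ = 1 :=
      Pool.Agent.H1.SatoTate.st_compl isOpen_interior.measurableSet
    linarith
  have hu1 : UpperDensityLe {v : Places S | θ v ∈ (interior B)ᶜ} (1 - st B) := by
    have h1 := first_pair h (isOpen_interior (s := B)).isClosed_compl (e := 0) le_rfl
      (B := {v | θ v ∈ (interior B)ᶜ}) fun v hv => ⟨hv, Or.inl rfl⟩
    rw [hco] at h1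
    norm_num at h1
    exact h1
  have hu2 := main h (isClosed_closure (s := B))
  rw [hcl] at hu2
  set d := min (st B / 10) (st B / (1 + 34 * st B)) with hd
  obtain ⟨C, hC⟩ := Pool.Agent.H1.SatoTate.total (P := Places S) (q := fun v => q v.1) one_lt_q
    (nice_congr (h.symmetric 0 0) fun v k => by simp [symTr, ad])
  intro ε hε
  have hbig := Pool.Agent.X289.RSD.log_atTop.eventually (eventually_ge_atTop (3 * C / ε))
  filter_upwards [hC, hu1 (ε / 3) (by linarith), hu2 (ε / 3) (by linarith), hbig] with s g1 g2 g3 g4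
  obtain ⟨k1, k2⟩ := g1
  have k3 : Summable ({v | θ v ∈ B ∧ Tempered (a v)}.indicator fun v : Places S => (q v.1 : ℝ) ^ (-s)) :=
    k1.indicator _
  refine ⟨k3, ?_⟩
  have k4 : ∑' v : Places S, (q v.1 : ℝ) ^ (-s) ≤
      ∑' v, ({v | θ v ∈ B ∧ Tempered (a v)}.indicator (fun v : Places S => (q v.1 : ℝ) ^ (-s)) v +
        ({v | θ v ∈ (interior B)ᶜ}.indicator (fun v : Places S => (q v.1 : ℝ) ^ (-s)) v +
        {v | θ v ∈ closure B ∧ ¬ Tempered (a v)}.indicator (fun v : Places S => (q v.1 : ℝ) ^ (-s)) v)) := by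
    refine k1.tsum_le_tsum (fun v => ?_) (k3.add (g2.1.add g3.1))
    have n0 : (0 : ℝ) ≤ (q v.1 : ℝ) ^ (-s) := by positivity
    have n1 : 0 ≤ {v | θ v ∈ B ∧ Tempered (a v)}.indicator (fun v : Places S => (q v.1 : ℝ) ^ (-s)) v :=
      Set.indicator_nonneg (fun v _ => by positivity) v
    have n2 : 0 ≤ {v | θ v ∈ (interior B)ᶜ}.indicator (fun v : Places S => (q v.1 : ℝ) ^ (-s)) v :=
      Set.indicator_nonneg (fun v _ => by positivity) v
    have n3 : 0 ≤ {v | θ v ∈ closure B ∧ ¬ Tempered (a v)}.indicator (fun v : Places S => (q v.1 : ℝ) ^ (-s)) v :=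
      Set.indicator_nonneg (fun v _ => by positivity) v
    by_cases hv : θ v ∈ B
    · by_cases hv2 : Tempered (a v)
      · have : v ∈ {v | θ v ∈ B ∧ Tempered (a v)} := ⟨hv, hv2⟩
        rw [Set.indicator_of_mem this]
        linarith
      · have : v ∈ {v | θ v ∈ closure B ∧ ¬ Tempered (a v)} := ⟨subset_closure hv, hv2⟩
        rw [Set.indicator_of_mem this]
        linarith
    · have : v ∈ {v | θ v ∈ (interior B)ᶜ} := fun h2 => hv (interior_subset h2)
      rw [Set.indicator_of_mem this]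
      linarith
  rw [k3.tsum_add (g2.1.add g3.1), g2.1.tsum_add g3.1] at k4
  have k5 := g2.2
  have k6 := g3.2
  rw [div_le_iff₀ hε] at g4
  nlinarith

theorem first_trivial {θ : Places S → ℝ} {a : Places S → ℂ} (h : PairTrivial θ a) {F : Set ℝ} (hF : IsClosed F)
    {δ : ℝ} (hδ : |δ| = 1) {T : ℝ} (hT : 2 ≤ T) :
    UpperDensityLe {v | θ v ∈ F ∧ T ≤ δ * lam (a v)} (st F / (1 + T ^ 2 + (T ^ 2 - 1) ^ 2)) := by
  have s1 : δ ^ 2 = 1 := by rw [← sq_abs, hδ, one_pow]
  set g : Fin 5 → ℝ := ![1 + T ^ 2 + (T ^ 2 - 1) ^ 2, 2 * δ * T ^ 3, T ^ 2 + (T ^ 2 - 1) ^ 2 + 2 * (T ^ 2 - 1),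
    2 * δ * T * (T ^ 2 - 1), (T ^ 2 - 1) ^ 2] with hg
  have e1 : ∀ v k, (∑ i, g i * SS a i v k) =
      (1 + T * (δ * Pool.Agent.X289.Sat.lam (a v ^ (k + 1))) +
        (T ^ 2 - 1) * (Pool.Agent.X289.Sat.lam (a v ^ (k + 1)) ^ 2 - 1)) ^ 2 := by
    intro v k
    simp only [hg, Fin.sum_univ_five, Matrix.cons_val_zero, Matrix.cons_val_one, Matrix.cons_val, SS,
      Pool.Agent.X289.Sat.symR]
    set x := Pool.Agent.X289.Sat.lam (a v ^ (k + 1))
    linear_combination (-(T ^ 2 * x ^ 2)) * s1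
  have h1 := Pool.Agent.H1.SatoTate.first (P := Places S) (q := fun v => q v.1) one_lt_q (i0 := (0 : Fin 5))
    (θ := θ) h.angle (A := SS a)
    (fun n i => nice_congr (h.symmetric n i) fun v k => by rw [SS_eq h]; rfl)
    (fun i j => nice_congr (h.rankinSelberg i j) fun v k => by rw [SS_eq h, SS_eq h])
    hF g (by simp only [hg, Matrix.cons_val_zero]; positivity)
    (fun v k => by rw [e1]; exact sq_nonneg _) (Y := (1 + T ^ 2 + (T ^ 2 - 1) ^ 2) ^ 2) (by positivity)
    (B := {v | θ v ∈ F ∧ T ≤ δ * lam (a v)})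
    (fun v hv => by
      obtain ⟨h2, h3⟩ := hv
      refine ⟨h2, ?_⟩
      rw [e1]
      simp only [zero_add, pow_one]
      have h4 : Pool.Agent.X289.Sat.lam (a v) = lam (a v) := rfl
      rw [h4]
      set x := lam (a v) with hx
      have h5 : x ^ 2 = (δ * x) ^ 2 := by rw [mul_pow, s1, one_mul]
      rw [h5]
      set y := δ * x with hy
      refine pow_le_pow_left₀ (by positivity) ?_ 2
      have h6 : T ^ 2 ≤ y ^ 2 := pow_le_pow_left₀ (by linarith) h3 2
      have h7 : 0 ≤ T ^ 2 - 1 := by nlinarith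
      nlinarith)
  have h2 : g 0 * Pool.Agent.H1.SatoTate.st F / (1 + T ^ 2 + (T ^ 2 - 1) ^ 2) ^ 2 =
      st F / (1 + T ^ 2 + (T ^ 2 - 1) ^ 2) := by
    have : g 0 = 1 + T ^ 2 + (T ^ 2 - 1) ^ 2 := rfl
    rw [this]
    have h3 : Pool.Agent.H1.SatoTate.st F = st F := rfl
    rw [h3]
    have : (1 + T ^ 2 + (T ^ 2 - 1) ^ 2 : ℝ) ≠ 0 := by positivity
    field_simp
  rw [h2] at h1
  exact h1

theorem second_trivial {θ : Places S → ℝ} {a : Places S → ℂ} (h : PairTrivial θ a) {F : Set ℝ} (hF : IsClosed F)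
    {δ : ℝ} (hδ : |δ| = 1) {T : ℝ} (hT : 2 ≤ T) :
    UpperDensityLe {v | θ v ∈ F ∧ T ≤ δ * lam (a v)}
      (st F / (1 + st F * (T ^ 2 + (T ^ 2 - 1) ^ 2 + (T ^ 3 - 2 * T) ^ 2 + (T ^ 4 - 3 * T ^ 2 + 1) ^ 2))) := by
  have s1 : δ ^ 2 = 1 := by rw [← sq_abs, hδ, one_pow]
  set e : Fin 5 → ℝ := ![0, δ * T, T ^ 2 - 1, δ * (T ^ 3 - 2 * T), T ^ 4 - 3 * T ^ 2 + 1] with he
  have h2 : (∑ i, e i ^ 2) = T ^ 2 + (T ^ 2 - 1) ^ 2 + (T ^ 3 - 2 * T) ^ 2 + (T ^ 4 - 3 * T ^ 2 + 1) ^ 2 := by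
    simp only [he, Fin.sum_univ_five, Matrix.cons_val_zero, Matrix.cons_val_one, Matrix.cons_val]
    linear_combination (T ^ 2 + (T ^ 3 - 2 * T) ^ 2) * s1
  have h1 := Pool.Agent.H1.SatoTate.second (P := Places S) (q := fun v => q v.1) one_lt_q (i0 := (0 : Fin 5))
    (θ := θ) h.angle (A := SS a) (fun v k => rfl)
    (fun n i => nice_congr (h.symmetric n i) fun v k => by rw [SS_eq h]; rfl)
    (fun i j => nice_congr (h.rankinSelberg i j) fun v k => by rw [SS_eq h, SS_eq h])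
    hF e rfl (B := {v | θ v ∈ F ∧ T ≤ δ * lam (a v)})
    (fun v hv => by
      obtain ⟨h3, h4⟩ := hv
      refine ⟨h3, ?_⟩
      rw [h2]
      simp only [he, Fin.sum_univ_five, Matrix.cons_val_zero, Matrix.cons_val_one, Matrix.cons_val, SS,
        Pool.Agent.X289.Sat.symR, zero_add, pow_one]
      have h5 : Pool.Agent.X289.Sat.lam (a v) = lam (a v) := rfl
      rw [h5]
      set x := lam (a v) with hx
      have t1 : (δ * x) ^ 2 = x ^ 2 := by rw [mul_pow, s1, one_mul]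
      have t3 : (δ * x) ^ 3 = δ * x ^ 3 := by
        calc (δ * x) ^ 3 = δ ^ 2 * (δ * x ^ 3) := by ring
          _ = _ := by rw [s1, one_mul]
      have t4 : (δ * x) ^ 4 = x ^ 4 := by
        calc (δ * x) ^ 4 = (δ ^ 2) ^ 2 * x ^ 4 := by ring
          _ = _ := by rw [s1]; ring
      have e2 : 0 * 1 + δ * T * x + (T ^ 2 - 1) * (x ^ 2 - 1) + δ * (T ^ 3 - 2 * T) * (x ^ 3 - 2 * x) +
          (T ^ 4 - 3 * T ^ 2 + 1) * (x ^ 4 - 3 * x ^ 2 + 1) =
          T * (δ * x) + (T ^ 2 - 1) * ((δ * x) ^ 2 - 1) + (T ^ 3 - 2 * T) * ((δ * x) ^ 3 - 2 * (δ * x)) +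
          (T ^ 4 - 3 * T ^ 2 + 1) * ((δ * x) ^ 4 - 3 * (δ * x) ^ 2 + 1) := by
        rw [t1, t3, t4]
        ring
      rw [e2]
      set y := δ * x with hy
      have T2 : 4 ≤ T ^ 2 := by nlinarith
      have m2 : T ^ 2 ≤ y ^ 2 := pow_le_pow_left₀ (by linarith) h4 2
      have n1 : T ^ 3 - 2 * T ≤ y ^ 3 - 2 * y := by
        have : y ^ 3 - 2 * y - (T ^ 3 - 2 * T) = (y - T) * (y ^ 2 + y * T + T ^ 2 - 2) := by ring
        have h6 : 0 ≤ (y - T) * (y ^ 2 + y * T + T ^ 2 - 2) :=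
          mul_nonneg (by linarith) (by nlinarith [mul_nonneg (show (0:ℝ) ≤ y by linarith) (show (0:ℝ) ≤ T by linarith)])
        linarith
      have n2 : T ^ 4 - 3 * T ^ 2 + 1 ≤ y ^ 4 - 3 * y ^ 2 + 1 := by
        have : y ^ 4 - 3 * y ^ 2 + 1 - (T ^ 4 - 3 * T ^ 2 + 1) = (y ^ 2 - T ^ 2) * (y ^ 2 + T ^ 2 - 3) := by ring
        have h6 : 0 ≤ (y ^ 2 - T ^ 2) * (y ^ 2 + T ^ 2 - 3) := mul_nonneg (by linarith) (by linarith)
        linarith
      have p0 : 0 ≤ T := by linarith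
      have p1 : 0 ≤ T ^ 2 - 1 := by linarith
      have p2 : 0 ≤ T ^ 3 - 2 * T := by
        have : T ^ 3 - 2 * T = T * (T ^ 2 - 2) := by ring
        rw [this]
        exact mul_nonneg p0 (by linarith)
      have p3 : 0 ≤ T ^ 4 - 3 * T ^ 2 + 1 := by
        have : T ^ 4 - 3 * T ^ 2 + 1 = T ^ 2 * (T ^ 2 - 3) + 1 := by ring
        rw [this]
        have : 0 ≤ T ^ 2 * (T ^ 2 - 3) := mul_nonneg (by positivity) (by linarith)
        linarith
      have q0 : T * T ≤ T * y := mul_le_mul_of_nonneg_left h4 p0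
      have q1 : (T ^ 2 - 1) * (T ^ 2 - 1) ≤ (T ^ 2 - 1) * (y ^ 2 - 1) :=
        mul_le_mul_of_nonneg_left (by linarith) p1
      have q2 : (T ^ 3 - 2 * T) * (T ^ 3 - 2 * T) ≤ (T ^ 3 - 2 * T) * (y ^ 3 - 2 * y) :=
        mul_le_mul_of_nonneg_left n1 p2
      have q3 : (T ^ 4 - 3 * T ^ 2 + 1) * (T ^ 4 - 3 * T ^ 2 + 1) ≤
          (T ^ 4 - 3 * T ^ 2 + 1) * (y ^ 4 - 3 * y ^ 2 + 1) := mul_le_mul_of_nonneg_left n2 p3
      linarith [sq T, sq (T ^ 2 - 1), sq (T ^ 3 - 2 * T), sq (T ^ 4 - 3 * T ^ 2 + 1)])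
  rw [h2] at h1
  exact h1

/-- **The Ramanujan conjecture for `GL(2)` at the places with a prescribed Sato-Tate angle.** -/
theorem result (θ : Places S → ℝ) :
    (∀ a : Places S → Fin 2 → ℂ, Pair θ a →
      (∀ F : Set ℝ, IsClosed F →
        UpperDensityLe {v | θ v ∈ F ∧ ¬ Tempered (a v)} (min (st F / 10) (st F / (1 + 34 * st F)))) ∧
      (∀ B : Set ℝ, volume (frontier B) = 0 →
        LowerDensityGe {v | θ v ∈ B ∧ Tempered (a v)} (st B - min (st B / 10) (st B / (1 + 34 * st B)))) ∧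
      ∀ F : Set ℝ, IsClosed F → ∀ T : ℝ, 1 ≤ T → 0 ≤ T ^ 4 - 3 * T ^ 2 + 1 →
        UpperDensityLe {v | θ v ∈ F ∧ T ≤ ‖a v 0 + a v 1‖} (min (st F / (1 + (T ^ 2 - 1) ^ 2))
          (st F / (1 + st F * ((T ^ 2 - 1) ^ 2 + (T ^ 4 - 3 * T ^ 2 + 1) ^ 2))))) ∧
    ∀ a : Places S → ℂ, PairTrivial θ a →
      ∀ F : Set ℝ, IsClosed F → ∀ δ : ℝ, |δ| = 1 → ∀ T : ℝ, 2 ≤ T →
        UpperDensityLe {v | θ v ∈ F ∧ T ≤ δ * lam (a v)} (min (st F / (1 + T ^ 2 + (T ^ 2 - 1) ^ 2))
          (st F / (1 + st F * (T ^ 2 + (T ^ 2 - 1) ^ 2 + (T ^ 3 - 2 * T) ^ 2 + (T ^ 4 - 3 * T ^ 2 + 1) ^ 2)))) := by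
  refine ⟨fun a h => ⟨fun F hF => main h hF, fun B hB => lower h hB, fun F hF T hT hT2 => ?_⟩,
    fun a h F hF δ hδ T hT => ud_min (first_trivial h hF hδ hT) (second_trivial h hF hδ hT)⟩
  have hn : ∀ v ∈ {v | θ v ∈ F ∧ T ≤ ‖a v 0 + a v 1‖}, T ^ 2 ≤ ‖a v 0 + a v 1‖ ^ 2 := fun v hv =>
    pow_le_pow_left₀ (by linarith) hv.2 2
  refine ud_min ?_ ?_
  · exact first_pair h hF (e := T ^ 2 - 1) (by nlinarith) fun v hv => ⟨hv.1, Or.inr (by linarith [hn v hv])⟩
  · exact second_pair h hF hT hT2 fun v hv => ⟨hv.1, hn v hv⟩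

end

end Pool.Agent.Results.MP_8410ab_nt.SatoTateAngles
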